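import Mathlib
import Pool.Agent.R493.CP.Pos
/-!
# Positions carried by Cunningham chains of both kinds

The numbers `2 ^ j n - 1`, `j = 0, 1, ...`, form a sequence in which every term is twice the preceding one
plus `1`, the numbers `2 ^ j n + 1` one in which every term is twice the preceding one minus `1`. Say that a
set `F` of positions is carried up to `N` if for at least `N / (log N) ^ C` of the `n ≤ N` all the numbers
`2 ^ j n - 1`, `j ∈ F`, are prime, and for at least `N / (log N) ^ C` of the `n ≤ N` all the numbers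
`2 ^ j n + 1`, `j ∈ F`, are prime. In every sufficiently large set `V` of positions, the proportion
`(25 / 324) ^ k - ε` of the subsets with `k + 1` elements is carried up to `N`, for every large `N`; and for
one family of subsets this happens for arbitrarily large `N`. The question is whether the sets
`{0, ..., k}` are carried (by one of the two kinds, for some `n`).

The theorem on classes of linear forms with the constant `18 / 5` (`Pool.Agent.Y827.RO.lamRD`) and the
combinatorial theorem for one family (`Pool.Agent.W25.QL.main_gen`) are from the starting files. New is the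
treatment of the two kinds together.
-/

namespace Pool.Agent.Results.MP_c183ae_nt.CommonPositions

open Finset Filter

/-- the number of the `1 ≤ n ≤ N` such that all `2 ^ j n - 1`, `j ∈ F`, are prime -/
def first (F : Finset ℕ) (N : ℕ) : ℕ := ((Icc 1 N).filter (fun n => ∀ j ∈ F, (2 ^ j * n - 1).Prime)).card

/-- the number of the `1 ≤ n ≤ N` such that all `2 ^ j n + 1`, `j ∈ F`, are prime -/
def second (F : Finset ℕ) (N : ℕ) : ℕ := ((Icc 1 N).filter (fun n => ∀ j ∈ F, (2 ^ j * n + 1).Prime)).card

/-- the set `F` of positions is carried by chains of both kinds up to `N` -/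
def Carried (C : ℕ) (F : Finset ℕ) (N : ℕ) : Prop :=
  (N : ℝ) / (Real.log N) ^ C ≤ first F N ∧ (N : ℝ) / (Real.log N) ^ C ≤ second F N

theorem carried_of {C N : ℕ} {F : Finset ℕ}
    (h : ∀ ρ, Pool.Agent.R493.CP.Pk (Pool.Agent.R493.CP.sg ρ) C N F) : Carried C F N := by
  constructor
  · have h1 := h 0
    unfold Pool.Agent.R493.CP.Pk Pool.Agent.Y827.GS.cntN at h1
    refine h1.trans ?_
    rw [Nat.cast_le]
    apply card_le_card
    intro n hn
    obtain ⟨h2, h3⟩ := mem_filter.1 hn
    refine mem_filter.2 ⟨h2, fun j hj => ?_⟩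
    have h4 := h3 _ (mem_image.2 ⟨j, hj, rfl⟩)
    have h5 : ((2 : ℤ) ^ j * (n : ℤ) + Pool.Agent.R493.CP.sg 0).toNat = 2 ^ j * n - 1 := by
      have h6 : Pool.Agent.R493.CP.sg 0 = -1 := rfl
      rw [h6]
      have h7 : (2 : ℤ) ^ j * (n : ℤ) = ((2 ^ j * n : ℕ) : ℤ) := by push_cast; ring
      rw [h7]
      omega
    simp only at h4
    rwa [h5] at h4
  · have h1 := h 1
    unfold Pool.Agent.R493.CP.Pk Pool.Agent.Y827.GS.cntN at h1
    refine h1.trans ?_
    rw [Nat.cast_le]
    apply card_le_card
    intro n hn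
    obtain ⟨h2, h3⟩ := mem_filter.1 hn
    refine mem_filter.2 ⟨h2, fun j hj => ?_⟩
    have h4 := h3 _ (mem_image.2 ⟨j, hj, rfl⟩)
    have h5 : ((2 : ℤ) ^ j * (n : ℤ) + Pool.Agent.R493.CP.sg 1).toNat = 2 ^ j * n + 1 := by
      have h6 : Pool.Agent.R493.CP.sg 1 = 1 := rfl
      rw [h6]
      have h7 : (2 : ℤ) ^ j * (n : ℤ) = ((2 ^ j * n : ℕ) : ℤ) := by push_cast; ring
      rw [h7]
      omega
    simp only at h4
    rwa [h5] at h4

open Classical in
theorem inj_card (k : ℕ) (F : Finset ℕ) :
    ((Fintype.piFinset (fun _ : Fin (k + 1) => F)).filter (fun y => Function.Injective y)).card =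
      F.card.descFactorial (k + 1) := by
  have e1 : F.card.descFactorial (k + 1) = Fintype.card (Fin (k + 1) ↪ F) := by
    rw [Fintype.card_embedding_eq, Fintype.card_coe, Fintype.card_fin]
  rw [e1, ← Fintype.card_coe]
  symm
  refine Fintype.card_congr ⟨fun e => ⟨fun i => (e i : ℕ), ?_⟩,
    fun u => ⟨fun i => ⟨u.1 i, ?_⟩, ?_⟩, ?_, ?_⟩
  · rw [mem_filter, Fintype.mem_piFinset]
    exact ⟨fun i => (e i).2, fun i j h => e.injective (Subtype.ext h)⟩
  · exact Fintype.mem_piFinset.1 (mem_filter.1 u.2).1 i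
  · intro i j h
    exact (mem_filter.1 u.2).2 (congrArg Subtype.val h)
  · intro e; ext i; rfl
  · intro u; rfl

open Classical in
theorem result (k : ℕ) (ε : ℝ) (hε : 0 < ε) : ∃ n₀ C : ℕ, ∀ V : Finset ℕ, n₀ ≤ V.card →
    (∀ᶠ N : ℕ in atTop, ((25 / 324) ^ k - ε) * (V.card.choose (k + 1) : ℝ) ≤
      (((V.powersetCard (k + 1)).filter (fun F => Carried C F N)).card : ℝ)) ∧
    ∃ G ⊆ V.powersetCard (k + 1), ((25 / 324) ^ k - ε) * (V.card.choose (k + 1) : ℝ) ≤ (G.card : ℝ) ∧
      ∃ᶠ N : ℕ in atTop, ∀ F ∈ G, Carried C F N := by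
  obtain ⟨n₀, C, h⟩ := Pool.Agent.R493.CP.common k ε hε
  refine ⟨n₀, C, fun V hV => ?_⟩
  have key : ∀ᶠ N : ℕ in atTop, ((25 / 324) ^ k - ε) * (V.card.choose (k + 1) : ℝ) ≤
      (((V.powersetCard (k + 1)).filter (fun F => Carried C F N)).card : ℝ) := by
    filter_upwards [h V hV] with N hN
    set G := (V.powersetCard (k + 1)).filter (fun F => Carried C F N) with hG
    rcases le_or_gt ((25 / 324 : ℝ) ^ k - ε) 0 with h0 | h0
    · exact (mul_nonpos_of_nonpos_of_nonneg h0 (Nat.cast_nonneg _)).trans (Nat.cast_nonneg _)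
    set Y := (Fintype.piFinset (fun _ : Fin (k + 1) => V)).filter (fun y => Function.Injective y ∧
        ∀ ρ, Pool.Agent.R493.CP.Pk (Pool.Agent.R493.CP.sg ρ) C N (univ.image y)) with hY
    have h1 : Y.card ≤ (k + 1).factorial * (Y.image (fun y => univ.image y)).card := by
      apply card_le_mul_card_image
      intro F hF
      obtain ⟨y, hy, rfl⟩ := mem_image.1 hF
      have hyc : (univ.image y).card = k + 1 := by
        rw [card_image_of_injective _ (mem_filter.1 hy).2.1, card_univ, Fintype.card_fin]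
      have h2 : Y.filter (fun x => univ.image x = univ.image y) ⊆
          (Fintype.piFinset (fun _ : Fin (k + 1) => univ.image y)).filter
            (fun y => Function.Injective y) := by
        intro x hx
        obtain ⟨h3, h4⟩ := mem_filter.1 hx
        refine mem_filter.2 ⟨Fintype.mem_piFinset.2 (fun i => ?_), (mem_filter.1 h3).2.1⟩
        rw [← h4]
        exact mem_image_of_mem _ (mem_univ _)
      refine (card_le_card h2).trans ?_
      rw [inj_card, hyc, Nat.descFactorial_self]
    have h2 : Y.image (fun y => univ.image y) ⊆ G := by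
      intro F hF
      obtain ⟨y, hy, rfl⟩ := mem_image.1 hF
      obtain ⟨h3, h4, h5⟩ := mem_filter.1 hy
      refine mem_filter.2 ⟨mem_powersetCard.2 ⟨?_, ?_⟩, carried_of h5⟩
      · intro j hj
        obtain ⟨i, _, rfl⟩ := mem_image.1 hj
        exact Fintype.mem_piFinset.1 h3 i
      · rw [card_image_of_injective _ h4, card_univ, Fintype.card_fin]
    have h3 : (Y.card : ℝ) ≤ (k + 1).factorial * (G.card : ℝ) := by
      exact_mod_cast h1.trans (Nat.mul_le_mul_left _ (card_le_card h2))
    have h4 : ((k + 1).factorial : ℝ) * (V.card.choose (k + 1) : ℝ) ≤ (V.card : ℝ) ^ (k + 1) := by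
      have h5 : (k + 1).factorial * V.card.choose (k + 1) ≤ V.card ^ (k + 1) := by
        rw [← Nat.descFactorial_eq_factorial_mul_choose]
        exact Nat.descFactorial_le_pow _ _
      exact_mod_cast h5
    have h5 : (0 : ℝ) < ((k + 1).factorial : ℝ) := by exact_mod_cast Nat.factorial_pos _
    have h6 := mul_le_mul_of_nonneg_left h4 h0.le
    have h7 : ((k + 1).factorial : ℝ) * (((25 / 324) ^ k - ε) * (V.card.choose (k + 1) : ℝ)) ≤
        (k + 1).factorial * (G.card : ℝ) := by
      refine le_trans (le_of_eq ?_) (h6.trans (hN.trans h3))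
      ring
    exact le_of_mul_le_mul_left h7 h5
  refine ⟨key, ?_⟩
  by_contra hcon
  push Not at hcon
  have h1 : ∀ᶠ N : ℕ in atTop, ∀ G ∈ (V.powersetCard (k + 1)).powerset,
      ((25 / 324) ^ k - ε) * (V.card.choose (k + 1) : ℝ) ≤ (G.card : ℝ) →
      ∃ F ∈ G, ¬ Carried C F N := by
    rw [Filter.eventually_all_finset]
    intro G hG
    by_cases h2 : ((25 / 324) ^ k - ε) * (V.card.choose (k + 1) : ℝ) ≤ (G.card : ℝ)
    · filter_upwards [hcon G (mem_powerset.1 hG) h2] with N hN _
      exact hN
    · exact Eventually.of_forall (fun N h3 => absurd h3 h2)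
  obtain ⟨N, h2, h3⟩ := (key.and h1).exists
  obtain ⟨F, hF, hF2⟩ := h3 _ (mem_powerset.2 (filter_subset _ _)) h2
  exact hF2 (mem_filter.1 hF).2

end Pool.Agent.Results.MP_c183ae_nt.CommonPositions
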