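import Mathlib
import Pool.Agent.R463.NarLin

set_option autoImplicit false

/-!
# Narrow progressions in arbitrary sets of starting points of (almost prime) Cunningham chains
-/

namespace Pool.Agent.Results.MP_c183ae_nt.NarrowProgressions

open Finset Filter

/-- the `j`-th term of the chain `n, 2 n + 1, 4 n + 3, ...` (`s = 1`) or `n, 2 n - 1, 4 n - 3, ...`
(`s = -1`) -/
def c (s : ℤ) (j : ℕ) (n : ℤ) : ℤ := 2 ^ j * (n + s) - s

/-- the recursions -/
theorem c_succ (s : ℤ) (j : ℕ) (n : ℤ) : c s 0 n = n ∧ c s (j + 1) n = 2 * c s j n + s := by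
  unfold c
  constructor
  · ring
  · ring

/-- The `n ≥ 1` such that all prime factors of the first `k` terms of the chain starting at `n` are larger
than `n ^ (1 / r)`. -/
def RoughChain (k : ℕ) (s : ℤ) (r : ℕ) : Set ℕ :=
  {n | 1 ≤ n ∧ ∀ j < k, ∀ p : ℕ, p.Prime → (p : ℤ) ∣ c s j n → (n : ℝ) ^ (1 / (r : ℝ)) < (p : ℝ)}

/-- The `n ≥ 1` such that the first `k` terms of the chain starting at `n` are primes. -/
def Chain (k : ℕ) (s : ℤ) : Set ℕ := {n | 1 ≤ n ∧ ∀ j < k, ∃ q : ℕ, q.Prime ∧ c s j n = q}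

/-- `n` is a term of an `l`-term arithmetic progression with difference at most `D`, all terms of which
are elements of `A` in the interval `(a, b]`. -/
def InProgression (A : Set ℕ) (l : ℕ) (D : ℝ) (a b n : ℕ) : Prop :=
  ∃ u d : ℕ, 1 ≤ d ∧ (d : ℝ) ≤ D ∧ (∀ i < l, u + i * d ∈ A ∧ a < u + i * d ∧ u + i * d ≤ b) ∧
    ∃ i < l, n = u + i * d

theorem chain_sub {k : ℕ} {s : ℤ} (hk : 1 ≤ k) (hs : s = 1 ∨ s = -1) {r : ℕ} (hr : 2 ≤ r) :
    Chain k s ⊆ RoughChain k s r := by
  rintro n ⟨hn, h⟩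
  refine ⟨hn, fun j hj p hp hd => ?_⟩
  obtain ⟨q0, hq0, e0⟩ := h 0 hk
  rw [(c_succ s 0 n).1] at e0
  have hn2 : 2 ≤ n := by
    have h2 := hq0.two_le
    have : (n : ℤ) = q0 := e0
    omega
  obtain ⟨q, hq, e⟩ := h j hj
  have hpq : p = q := by
    rw [e] at hd
    exact (Nat.prime_dvd_prime_iff_eq hp hq).1 (by exact_mod_cast hd)
  have hge : (n : ℤ) ≤ c s j n := by
    unfold c
    have h1 : (1 : ℤ) ≤ 2 ^ j := one_le_pow₀ (by norm_num)
    have h2 : (2 : ℤ) ≤ n := by exact_mod_cast hn2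
    rcases hs with rfl | rfl
    · nlinarith
    · nlinarith
  have hnp : n ≤ p := by
    rw [e, ← hpq] at hge
    exact_mod_cast hge
  have hn1 : (1 : ℝ) < n := by
    have : (2 : ℝ) ≤ n := by exact_mod_cast hn2
    linarith
  have hr2 : (2 : ℝ) ≤ r := by exact_mod_cast hr
  have h3 : (n : ℝ) ^ (1 / (r : ℝ)) < n := by
    have h4 : (1 / (r : ℝ)) < 1 := by
      rw [div_lt_one (by linarith)]
      linarith
    have := Real.rpow_lt_rpow_of_exponent_lt hn1 h4
    rwa [Real.rpow_one] at this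
  exact h3.trans_le (by exact_mod_cast hnp)

open Classical in
/-- **Narrow progressions.** Let `θ > 0`, `k ≥ 1`, `s = 1` or `s = -1`, `r, l ≥ 2` and `ε > 0`. There is an
exponent `B` such that for all large `X`, all `X ^ θ ≤ Y ≤ X` and EVERY set `A` of numbers `n` such that
none of the first `k` terms of the chain starting at `n` has a prime factor `≤ n ^ (1 / r)`, for instance
every set of starting points of Cunningham chains of length `k`: all but at most `ε Y / log ^ k X` of the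
elements of `A` in `(X, X + Y]` are terms of `l`-term arithmetic progressions, contained in the part of
`A` in `(X, X + Y]`, with difference at most `(log X) ^ B`. -/
theorem result (k : ℕ) (hk : 1 ≤ k) (s : ℤ) (hs : s = 1 ∨ s = -1) :
    (∀ r : ℕ, 2 ≤ r → Chain k s ⊆ RoughChain k s r) ∧
    ∀ θ : ℝ, 0 < θ → ∀ r : ℕ, 2 ≤ r → ∀ l : ℕ, 2 ≤ l → ∀ ε : ℝ, 0 < ε →
    ∃ B : ℕ, ∀ᶠ X : ℕ in atTop, ∀ Y : ℕ, (X : ℝ) ^ θ ≤ Y → Y ≤ X →
      ∀ A : Set ℕ, A ⊆ RoughChain k s r →
        (((Ioc X (X + Y)).filter (fun n : ℕ =>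
          n ∈ A ∧ ¬ InProgression A l (Real.log X ^ B) X (X + Y) n)).card : ℝ) ≤
        ε * (Y / Real.log X ^ k) := by
  refine ⟨fun r hr => chain_sub hk hs hr, ?_⟩
  intro θ hθ r hr l hl ε hε
  obtain ⟨B, hB⟩ := Pool.Agent.R463.NL.narrow_lin (k := k) hk (fun j => 2 ^ (j : ℕ))
    (fun j => 2 ^ (j : ℕ) * s - s) (fun j => by positivity)
    (fun j => by
      rcases hs with rfl | rfl
      · exact ⟨1, -1, by push_cast; ring⟩
      · exact ⟨1, 1, by push_cast; ring⟩)
    (fun i j hij _ => Fin.ext (Nat.pow_right_injective le_rfl hij))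
    (fun p hp => by
      refine ⟨(p - s).toNat, fun j hd => ?_⟩
      have h2 := hp.two_le
      have h0 : (((p : ℤ) - s).toNat : ℤ) = p - s := by
        apply Int.toNat_of_nonneg
        rcases hs with rfl | rfl <;> omega
      rw [h0] at hd
      have h3 : (p : ℤ) ∣ s := by
        have e : s = 2 ^ (j : ℕ) * p - (((2 ^ (j : ℕ) : ℕ) : ℤ) * ((p : ℤ) - s) + (2 ^ (j : ℕ) * s - s)) := by
          push_cast
          ring
        rw [e]
        exact dvd_sub (Dvd.intro_left _ rfl) hd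
      have h4 : (p : ℤ) ∣ 1 := by
        rcases hs with rfl | rfl
        · exact h3
        · exact (dvd_neg).1 h3
      exact hp.one_lt.ne' (Nat.dvd_one.1 (by exact_mod_cast h4)))
    θ hθ r hr l hl ε hε
  refine ⟨B, ?_⟩
  filter_upwards [hB] with X hX Y hXY hYX A hA
  refine hX Y hXY hYX A (fun n hn i p hp hd => ?_)
  refine (hA hn).2 i i.2 p hp ?_
  unfold c
  have e : (2 : ℤ) ^ (i : ℕ) * ((n : ℤ) + s) - s =
      (((2 ^ (i : ℕ) : ℕ) : ℤ)) * (n : ℤ) + (2 ^ (i : ℕ) * s - s) := by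
    push_cast
    ring
  rw [e]
  exact hd

end Pool.Agent.Results.MP_c183ae_nt.NarrowProgressions
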