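import Mathlib
import Pool.Agent.R463.LawX

set_option autoImplicit false

/-!
# The Poisson law after primes which start almost prime Cunningham chains of any length
-/

namespace Pool.Agent.Results.MP_c183ae_nt.PoissonLaw

open Finset Filter

/-- the `j`-th term of the chain `n, 2 n + 1, 4 n + 3, ...` (`s = 1`) or `n, 2 n - 1, 4 n - 3, ...`
(`s = -1`) -/
def c (s : ℤ) (j : ℕ) (n : ℤ) : ℤ := 2 ^ j * (n + s) - s

/-- the recursions -/
theorem c_succ (s : ℤ) (j : ℕ) (n : ℤ) : c s 0 n = n ∧ c s (j + 1) n = 2 * c s j n + s := by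
  unfold c
  constructor
  · ring
  · ring

/-- no prime `p ≤ N ^ (1 / r)` divides one of the first `k` terms of the chain starting at `n` -/
def Almost (k : ℕ) (s : ℤ) (N r n : ℕ) : Prop :=
  ∀ p : ℕ, p.Prime → (p : ℝ) ≤ (N : ℝ) ^ (1 / (r : ℝ)) → ∀ j < k, ¬ (p : ℤ) ∣ c s j n

open Classical in
/-- the number of the residues `n` modulo `p` for which `p` divides one of the first `k` terms of the
chain starting at `n` -/
noncomputable def nu (k : ℕ) (s : ℤ) (p : ℕ) : ℕ :=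
  ((range p).filter (fun n : ℕ => ∃ j < k, (p : ℤ) ∣ c s j n)).card

/-- the product of `1 - nu(p) / p` over the primes `p ≤ N ^ (1 / r)` -/
noncomputable def V (k : ℕ) (s : ℤ) (N r : ℕ) : ℝ :=
  ∏ p ∈ (Icc 1 ⌊(N : ℝ) ^ (1 / (r : ℝ))⌋₊).filter Nat.Prime, (1 - (nu k s p : ℝ) / p)

/-- the product of `(1 - nu(p) / p) / (1 - 1 / p)` over the primes `p ≤ N ^ (1 / r)` -/
noncomputable def W (k : ℕ) (s : ℤ) (N r : ℕ) : ℝ :=
  ∏ p ∈ (Icc 1 ⌊(N : ℝ) ^ (1 / (r : ℝ))⌋₊).filter Nat.Prime, (1 - (nu k s p : ℝ) / p) / (1 - 1 / (p : ℝ))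

open Classical in
/-- the PRIMES `q` in `(A, A + L]` such that the first `k` terms of the chain starting at `q` have no
prime factor `≤ N ^ (1 / r)` -/
noncomputable def P (k : ℕ) (s : ℤ) (N r A L : ℕ) : Finset ℕ :=
  (Ioc A (A + L)).filter (fun q => q.Prime ∧ Almost k s N r q)

open Classical in
/-- the number of the `l` in `(n, n + T]` which start an almost prime chain of length `k` -/
noncomputable def Next (k : ℕ) (s : ℤ) (N r T n : ℕ) : ℕ :=
  ((Ioc n (n + T)).filter (fun l => Almost k s N r l)).card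

/-- the leading coefficients -/
def ca (k : ℕ) : Fin k → ℤ := fun j => 2 ^ (j : ℕ)

/-- the constant terms -/
def cb (k : ℕ) (s : ℤ) : Fin k → ℤ := fun j => 2 ^ (j : ℕ) * s - s

lemma c_eq (k : ℕ) (s : ℤ) (j : Fin k) (n : ℤ) : ca k j * n + cb k s j = c s j n := by
  unfold ca cb c
  ring

open Pool.Agent.R463.LX in
lemma lx (k : ℕ) (hk : 1 ≤ k) (s : ℤ) (hs : s = 1 ∨ s = -1) : Lx (ca k) (cb k s) where
  pos := fun j => by
    show (0 : ℤ) < 2 ^ (j : ℕ)
    positivity
  inj := fun i j hij => by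
    have h : (2 : ℤ) ^ (i : ℕ) = 2 ^ (j : ℕ) := hij
    exact Fin.ext (Nat.pow_right_injective le_rfl (by exact_mod_cast h))
  cop := fun j => by
    rcases hs with rfl | rfl
    · exact ⟨1, -1, by unfold ca cb; ring⟩
    · exact ⟨1, 1, by unfold ca cb; ring⟩
  adm := fun p hp => by
    refine ⟨(p - s).toNat, fun j hd => ?_⟩
    have h2 := hp.two_le
    have h0 : (((p : ℤ) - s).toNat : ℤ) = p - s := by
      apply Int.toNat_of_nonneg
      rcases hs with rfl | rfl <;> omega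
    rw [h0, c_eq] at hd
    have h3 : (p : ℤ) ∣ s := by
      have e : s = 2 ^ (j : ℕ) * p - c s j ((p : ℤ) - s) := by
        unfold c
        ring
      rw [e]
      exact dvd_sub (Dvd.intro_left _ rfl) hd
    have h4 : (p : ℤ) ∣ 1 := by
      rcases hs with rfl | rfl
      · exact h3
      · exact (dvd_neg).1 h3
    exact hp.one_lt.ne' (Nat.dvd_one.1 (by exact_mod_cast h4))
  base := ⟨⟨0, hk⟩, by unfold ca; simp, by unfold cb; simp⟩

lemma almost_iff (k : ℕ) (s : ℤ) (N r n : ℕ) :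
    Almost k s N r n ↔ Pool.Agent.R463.LX.Gd (ca k) (cb k s) N r n := by
  unfold Almost Pool.Agent.R463.LX.Gd
  constructor
  · intro h p hp hpN i
    rw [c_eq]
    exact h p hp hpN i i.2
  · intro h p hp hpN j hj
    have := h p hp hpN ⟨j, hj⟩
    rwa [c_eq] at this

lemma nu_eq (k : ℕ) (s : ℤ) (p : ℕ) : nu k s p = Pool.Agent.R463.LX.nu (ca k) (cb k s) p := by
  classical
  unfold nu Pool.Agent.R463.LX.nu
  congr 1
  apply filter_congr
  intro n _
  constructor
  · rintro ⟨j, hj, hd⟩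
    refine ⟨⟨j, hj⟩, ?_⟩
    rwa [c_eq]
  · rintro ⟨j, hd⟩
    rw [c_eq] at hd
    exact ⟨j, j.2, hd⟩

lemma V_eq (k : ℕ) (s : ℤ) (N r : ℕ) : V k s N r = Pool.Agent.R463.LX.V (ca k) (cb k s) N r := by
  unfold V Pool.Agent.R463.LX.V
  simp only [nu_eq]

lemma W_eq (k : ℕ) (s : ℤ) (N r : ℕ) : W k s N r = Pool.Agent.R463.LX.W (ca k) (cb k s) N r := by
  unfold W Pool.Agent.R463.LX.W
  simp only [nu_eq]

lemma P_eq (k : ℕ) (s : ℤ) (N r A L : ℕ) :
    P k s N r A L = Pool.Agent.R463.LX.P (ca k) (cb k s) N r A L := by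
  classical
  unfold P Pool.Agent.R463.LX.P
  apply filter_congr
  intro n _
  rw [almost_iff]

lemma Next_eq (k : ℕ) (s : ℤ) (N r T n : ℕ) :
    Next k s N r T n = Pool.Agent.R463.LX.Next (ca k) (cb k s) N r T n := by
  classical
  unfold Next Pool.Agent.R463.LX.Next
  congr 1
  apply filter_congr
  intro l _
  exact almost_iff k s N r l

/-- **The Poisson law after primes which start almost prime Cunningham chains.** Let `k ≥ 1` and
`s = 1` (first kind) or `s = -1` (second kind). For all `θ, δ > 0`, `0 < ε ≤ 1` and `x₀` there is `r₀`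
such that for all `r ≥ r₀` and all large `N`:
(1) if `n ≤ N` is in `Almost`, then each of the first `k` terms of the chain starting at `n` has at most
`r` prime factors (with multiplicity); conversely, `n > N ^ (1 / r)` is in `Almost` if these terms are
primes;
(2) for all `X ≥ N ^ θ` and all windows `(A, A + L] ⊆ (0, X]` of a length `L ≥ δ X`, the number of the
PRIMES `q` in the window which are in `Almost` is `(1 + η) L W / log X`, `|η| ≤ ε`, `W > 0`;
(3) for `T V ≤ x₀` the number of the `l` in `(q, q + T]` which are in `Almost`, `q` running over the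
primes in (2), has the Poisson law of mean `T V`, up to `ε`. -/
theorem result (k : ℕ) (hk : 1 ≤ k) (s : ℤ) (hs : s = 1 ∨ s = -1)
    (θ δ : ℝ) (hθ : 0 < θ) (hδ : 0 < δ) (hδ1 : δ ≤ 1) (x₀ ε : ℝ) (hε : 0 < ε) (hε1 : ε ≤ 1) :
    ∃ r₀ : ℕ, ∀ r : ℕ, r₀ ≤ r → ∃ N₀ : ℕ, ∀ N : ℕ, N₀ ≤ N →
      (∀ n : ℕ, n ≤ N → Almost k s N r n → ∀ j < k, (c s j n).natAbs.primeFactorsList.length ≤ r) ∧
      (∀ n : ℕ, (N : ℝ) ^ (1 / (r : ℝ)) < n → (∀ j < k, ∃ q : ℕ, q.Prime ∧ c s j n = q) →
        Almost k s N r n) ∧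
      0 < V k s N r ∧ 0 < W k s N r ∧
      ∀ X : ℕ, (N : ℝ) ^ θ ≤ X → ∀ A L : ℕ, δ * X ≤ L → A + L ≤ X →
        |((P k s N r A L).card : ℝ) * Real.log X - L * W k s N r| ≤ ε * (L * W k s N r) ∧
        ∀ T : ℕ, T * V k s N r ≤ x₀ → ∀ B : Finset ℕ,
          |(((P k s N r A L).filter (fun q => Next k s N r T q ∈ B)).card : ℝ) -
            (P k s N r A L).card *
              ∑ j ∈ B, Real.exp (-(T * V k s N r)) * (T * V k s N r) ^ j / j.factorial| ≤
            ε * (P k s N r A L).card := by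
  classical
  obtain ⟨r₀, hr₀, H⟩ := Pool.Agent.R463.LX.law (ca k) (cb k s) (lx k hk s hs) θ δ hθ hδ hδ1 x₀ ε hε hε1
  refine ⟨r₀, fun r hr => ?_⟩
  obtain ⟨N₀, H⟩ := H r hr
  refine ⟨max N₀ 1, fun N hN => ?_⟩
  obtain ⟨H1, H2, H3, H4⟩ := H N ((le_max_left _ _).trans hN)
  have hN1 : (1 : ℝ) ≤ N := by exact_mod_cast (le_max_right _ _).trans hN
  refine ⟨?_, ?_, by rw [V_eq]; exact H2, by rw [W_eq]; exact H3, ?_⟩
  · intro n hn hg j hj
    have := H1 n hn ((almost_iff k s N r n).1 hg) ⟨j, hj⟩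
    rwa [c_eq] at this
  · intro n hn hpr p hp hpN j hj hd
    obtain ⟨q, hq, e⟩ := hpr j hj
    have hpq : p = q := by
      rw [e] at hd
      exact (Nat.prime_dvd_prime_iff_eq hp hq).1 (by exact_mod_cast hd)
    have h1 : (1 : ℝ) ≤ (N : ℝ) ^ (1 / (r : ℝ)) := Real.one_le_rpow hN1 (by positivity)
    have hn1 : (1 : ℝ) < n := lt_of_le_of_lt h1 hn
    have hn2 : 1 < n := by exact_mod_cast hn1
    have hge : (n : ℤ) ≤ c s j n := by
      unfold c
      have h1 : (1 : ℤ) ≤ 2 ^ j := one_le_pow₀ (by norm_num)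
      have h2 : (2 : ℤ) ≤ n := by exact_mod_cast hn2
      rcases hs with rfl | rfl
      · nlinarith
      · nlinarith
    have hnp : n ≤ p := by
      rw [e, ← hpq] at hge
      exact_mod_cast hge
    have : (n : ℝ) ≤ p := by exact_mod_cast hnp
    linarith
  · intro X hX A L hL hAL
    obtain ⟨G1, G2⟩ := H4 X hX A L hL hAL
    rw [W_eq, V_eq, P_eq]
    refine ⟨G1, ?_⟩
    intro T hT B
    have h8 := G2 T hT B
    simp only [Next_eq]
    exact h8

end Pool.Agent.Results.MP_c183ae_nt.PoissonLaw
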